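import Pool.Agent.Run7.h245.MO.Iface2
import Pool.Agent.Q286.EQ.MW
import Pool.Agent.N721.PP.GF

/-!
# Project MO (helper245), piece RK: the rank is at most the dimension of the 2-Selmer group (helper803)
-/

set_option autoImplicit false
set_option linter.all false

open NumberField Polynomial IsDedekindDomain WeierstrassCurve WeierstrassCurve.Affine
open scoped Classical

namespace Pool.Agent.Run7.h803.MO

open Pool.Agent.Run7.h245.MO (S_RK)
open Pool.Agent.Run7.h245.SR (Sel2 SelCoc SelEqv selEqv_equivalence)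
open Pool.Agent.TH115.GD
open Pool.Agent.N874.PP (sW)
open Pool.Agent.N721.PP (half)

/-! ### Finitely generated abelian groups -/

/-- A finitely generated abelian group of rank `n` maps onto `(ℤ / 2) ^ n`. -/
theorem onto (M : Type) [AddCommGroup M] (hM : AddGroup.FG M) :
    ∃ g : M →+ (Fin (Module.finrank ℤ M) → ZMod 2), Function.Surjective g := by
  haveI : Module.Finite ℤ M := Module.Finite.iff_addGroup_fg.2 hM
  obtain ⟨T, hT⟩ : ∃ T : Submodule ℤ M, T = Submodule.torsion ℤ M := ⟨_, rfl⟩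
  haveI : Module.IsTorsionFree ℤ (M ⧸ T) := by
    rw [hT]; infer_instance
  haveI : Module.Free ℤ (M ⧸ T) := inferInstance
  have hr : Module.finrank ℤ (M ⧸ T) = Module.finrank ℤ M := by
    unfold Module.finrank
    rw [rank_quotient_eq_of_le_torsion (le_of_eq hT)]
  let b : Module.Basis (Fin (Module.finrank ℤ M)) ℤ (M ⧸ T) :=
    (Module.finBasis ℤ (M ⧸ T)).reindex (finCongr hr)
  let e := b.equivFun
  let c : (Fin (Module.finrank ℤ M) → ℤ) →+ (Fin (Module.finrank ℤ M) → ZMod 2) :=
    { toFun := fun v i => (v i : ZMod 2)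
      map_zero' := by ext i; simp
      map_add' := by intro v w; ext i; simp }
  refine ⟨(c.comp e.toLinearMap.toAddMonoidHom).comp T.mkQ.toAddMonoidHom, ?_⟩
  intro v
  choose z hz using fun i => ZMod.intCast_surjective (v i)
  obtain ⟨x, hx⟩ := e.surjective z
  obtain ⟨P, hP⟩ := T.mkQ_surjective x
  refine ⟨P, ?_⟩
  show c (e (T.mkQ P)) = v
  rw [hP, hx]
  ext i
  exact hz i

/-! ### The Kummer map -/

section

variable {K : Type} [Field K]

theorem cobLoc {L : Type} [Field L] [Algebra K L] (W : WeierstrassCurve K) (R : Pt W (Sep K)) :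
    LocTriv W L (Sep L) (fun σ : Sep K ≃ₐ[K] Sep K => act W (rs K σ) R - R) := by
  haveI : Algebra.IsSeparable K (Sep K) := IsSepClosure.separable
  let ι : Sep K →ₐ[K] Sep L := IsSepClosed.lift
  refine ⟨ι, act W (ι.restrictScalars K) R, fun τ σ hτ => ?_⟩
  have h5 : (ι.restrictScalars K).comp (rs K σ) = (rs K τ).comp (ι.restrictScalars K) :=
    AlgHom.ext fun x => (hτ x).symm
  rw [map_sub, act_act, act_act, h5]

end

theorem main {K : Type} [Field K] [NumberField K] (A B : K) (d : ℕ)
    (hd : 4 * A ^ 3 + 27 * B ^ 2 ≠ 0) (hc : Nat.card (Sel2 K (sW A B)) = 2 ^ d)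
    (hfg : AddGroup.FG (Pt (sW A B) K)) : Module.finrank ℤ (Pt (sW A B) K) ≤ d := by
  haveI : Algebra.IsSeparable K (Sep K) := IsSepClosure.separable
  haveI : IsGalois K (Sep K) := inferInstance
  have h6 : (6 : K) ≠ 0 := by norm_num
  -- the points over the separable closure
  have h1 : ∀ P : Pt (sW A B) K, ∃ R : Pt (sW A B) (Sep K),
      R + R = act (sW A B) (incl K K (Sep K)) P := fun P => half h6 hd _
  choose R hR using h1
  have hfix : ∀ (P : Pt (sW A B) K) (σ : Sep K ≃ₐ[K] Sep K),
      act (sW A B) (rs K σ) (R P + R P) = R P + R P := fun P σ => by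
    rw [hR]; exact rs_act_incl _ σ P
  have hsel : ∀ P : Pt (sW A B) K,
      SelCoc K (sW A B) (fun σ => act (sW A B) (rs K σ) (R P) - R P) := by
    intro P
    refine ⟨cob_isCoc _ (R P), fun σ => ?_, fun v => cobLoc _ (R P), fun ρ => ?_⟩
    · rw [two_nsmul, sub_add_sub_comm, ← map_add, hfix, sub_self]
    · letI := ρ.toAlgebra
      exact cobLoc _ (R P)
  let κ : Pt (sW A B) K → Sel2 K (sW A B) := fun P =>
    Quotient.mk (⟨fun f f' : {f : (Sep K ≃ₐ[K] Sep K) → Pt (sW A B) (Sep K) // SelCoc K (sW A B) f} =>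
      SelEqv K (sW A B) f.1 f'.1, selEqv_equivalence K (sW A B)⟩ : Setoid _) ⟨_, hsel P⟩
  have hκ : ∀ P P' : Pt (sW A B) K, κ P = κ P' → ∃ Q : Pt (sW A B) K, P - P' = Q + Q := by
    intro P P' h
    obtain ⟨T, hT2, hT⟩ : SelEqv K (sW A B) (fun σ => act (sW A B) (rs K σ) (R P) - R P)
      (fun σ => act (sW A B) (rs K σ) (R P') - R P') := Quotient.exact h
    obtain ⟨Q, hQ⟩ := fixed_point (K := K) (F := K) (sW A B) (R P - R P' - T) (fun σ => by
      have h2 := hT σ
      have h3 : act (sW A B) (rs K σ) (R P) - R P - (act (sW A B) (rs K σ) (R P') - R P') =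
        act (sW A B) (rs K σ) T - T := h2
      rw [map_sub, map_sub]
      have h4 : act (sW A B) (rs K σ) (R P) = R P + (act (sW A B) (rs K σ) (R P') - R P') +
        (act (sW A B) (rs K σ) T - T) := by rw [← h3]; abel
      rw [h4]; abel)
    refine ⟨Q, act_inj (sW A B) (incl K K (Sep K)) ?_⟩
    rw [map_sub, ← hR, ← hR, map_add, hQ]
    have h5 : T + T = 0 := by rw [← two_nsmul]; exact hT2
    have h6 : R P - R P' - T + (R P - R P' - T) = R P + R P - (R P' + R P') - (T + T) := by abel
    rw [h6, h5, sub_zero]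
  -- counting
  obtain ⟨g, hg⟩ := onto (Pt (sW A B) K) hfg
  choose s hs using hg
  have hinj : Function.Injective (fun v => κ (s v)) := by
    intro v v' h
    obtain ⟨Q, hQ⟩ := hκ _ _ h
    have h2 := congrArg g hQ
    rw [map_sub, hs, hs, map_add] at h2
    have h3 : g Q + g Q = 0 := by
      ext i
      have : ∀ z : ZMod 2, z + z = 0 := by decide
      exact this _
    rw [h3] at h2
    exact sub_eq_zero.1 h2
  haveI : Finite (Sel2 K (sW A B)) := Nat.finite_of_card_ne_zero (by rw [hc]; positivity)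
  have h7 := Nat.card_le_card_of_injective _ hinj
  rw [hc, Nat.card_eq_fintype_card, Fintype.card_fun, ZMod.card, Fintype.card_fin] at h7
  exact (Nat.pow_le_pow_iff_right (by norm_num)).1 h7

/-- **RK** -/
theorem t_RK : S_RK := by
  intro F _ _ A B d hd hc
  have hΔ : (sW A B).Δ ≠ 0 := by
    intro h0
    apply hd
    have h1 : (sW A B).Δ = -16 * (4 * A ^ 3 + 27 * B ^ 2) := by
      simp only [sW, WeierstrassCurve.Δ, WeierstrassCurve.b₂, WeierstrassCurve.b₄,
        WeierstrassCurve.b₆, WeierstrassCurve.b₈]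
      ring
    rw [h1] at h0
    have h2 : (-16 : F) ≠ 0 := by norm_num
    exact (mul_eq_zero.1 h0).resolve_left h2
  have hfg : AddGroup.FG (sW A B).toAffine.Point :=
    Pool.Agent.Q286.EQ.mordell_weil F (sW A B) hΔ
  exact main A B d hd hc hfg

end Pool.Agent.Run7.h803.MO
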